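import Mathlib
import Pool.Agent.P.MP_303500_co.Large

set_option autoImplicit false

namespace Pool.Agent.Results.MP_303500_co.Cofinite

/-- The multigraph one-factorization conjecture of Plantholt and Tipnis holds for all but finitely
many pairs `(s, n)`: there is a constant `C` such that, whenever `s + n ≥ C`, every loopless
`Δ`-regular multigraph on `2n` vertices with multiplicities at most `s` and `Δ ≥ s n` splits into
`Δ` perfect matchings. -/
theorem result :
    ∃ C : ℕ, ∀ s : ℕ, 0 < s → ∀ n : ℕ, 0 < n → C ≤ s + n → ∀ Δ : ℕ,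
      ∀ m : Fin (2 * n) → Fin (2 * n) → ℕ,
        (∀ i j, m i j = m j i) →
        (∀ i, m i i = 0) →
        (∀ i j, m i j ≤ s) →
        (∀ i, ∑ j, m i j = Δ) →
        s * n ≤ Δ →
        ∃ f : Fin Δ → Equiv.Perm (Fin (2 * n)),
          (∀ k i, f k (f k i) = i) ∧
          (∀ k i, f k i ≠ i) ∧
          ∀ i j, m i j = (Finset.univ.filter (fun k => f k i = j)).card := by
  obtain ⟨C, hC⟩ := Pool.Agent.P.MP_303500_co.cofinite
  refine ⟨C, fun s hs n hn h Δ m h1 h2 h3 h4 h5 => ?_⟩
  exact (hC s n hs hn h (Fin (2 * n)) (by simp) Δ m ⟨h1, h2, h4⟩ h3 h5).perms ⟨0, by omega⟩ (h4 _)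

end Pool.Agent.Results.MP_303500_co.Cofinite
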