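import Mathlib
import Pool.Agent.P.MP_303500_co.Main

set_option autoImplicit false

namespace Pool.Agent.Results.MP_303500_co.LargeMultiplicity

/-- The multigraph one-factorization conjecture of Plantholt and Tipnis holds for every order `2n`
as soon as `s ≥ 600 n^6`: a loopless `Δ`-regular multigraph on `2n` vertices with multiplicities
at most `s` and `Δ ≥ s n` splits into `Δ` perfect matchings. -/
theorem result :
    ∀ s : ℕ, ∀ n : ℕ, 0 < n → 600 * n ^ 6 ≤ s → ∀ Δ : ℕ,
      ∀ m : Fin (2 * n) → Fin (2 * n) → ℕ,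
        (∀ i j, m i j = m j i) →
        (∀ i, m i i = 0) →
        (∀ i j, m i j ≤ s) →
        (∀ i, ∑ j, m i j = Δ) →
        s * n ≤ Δ →
        ∃ f : Fin Δ → Equiv.Perm (Fin (2 * n)),
          (∀ k i, f k (f k i) = i) ∧
          (∀ k i, f k i ≠ i) ∧
          ∀ i j, m i j = (Finset.univ.filter (fun k => f k i = j)).card := by
  intro s n hn hs Δ m h1 h2 h3 h4 h5
  exact (Pool.Agent.P.MP_303500_co.main n (Fin (2 * n)) (by simp) hn s Δ m ⟨h1, h2, h4⟩ h3 h5
    hs).perms ⟨0, by omega⟩ (h4 _)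

end Pool.Agent.Results.MP_303500_co.LargeMultiplicity
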